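import Pool.Agent.Helper67.NO.St3

/-!
# Project NO (MP_26be5b_ag), module FLO: global existence of a descent flow on the units
-/

set_option autoImplicit false
set_option linter.unusedSectionVars false

namespace Pool.Agent.Helper34.NO

open Set Metric Filter Topology
open scoped ContDiff NNReal Manifold

section Abstract

variable {R : Type} [NormedRing R] [NormedAlgebra ℝ R] [FiniteDimensional ℝ R]

theorem unit_of_inj (g : R) (h : ∀ X : R, g * X = 0 → X = 0) : IsUnit g := by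
  have hinj : Function.Injective (LinearMap.mulLeft ℝ g) := by
    rw [injective_iff_map_eq_zero]
    intro X hX
    exact h X hX
  have hsurj : Function.Surjective (LinearMap.mulLeft ℝ g) :=
    LinearMap.injective_iff_surjective.1 hinj
  obtain ⟨k, hk⟩ := hsurj 1
  have hk' : g * k = 1 := hk
  have hk2 : k * g = 1 := by
    have : g * (k * g - 1) = 0 := by
      rw [mul_sub, ← mul_assoc, hk', one_mul, mul_one, sub_self]
    exact sub_eq_zero.1 (h _ this)
  exact ⟨⟨g, k, hk', hk2⟩, rfl⟩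

theorem unit_of_right (g k : R) (h : g * k = 1) : IsUnit g := by
  have hsurj : Function.Surjective (LinearMap.mulLeft ℝ g) := by
    intro y
    refine ⟨k * y, ?_⟩
    show g * (k * y) = y
    rw [← mul_assoc, h, one_mul]
  have hinj : Function.Injective (LinearMap.mulLeft ℝ g) :=
    LinearMap.injective_iff_surjective.2 hsurj
  refine unit_of_inj g (fun X hX => ?_)
  have := hinj (a₁ := X) (a₂ := 0) (by show g * X = g * 0; rw [hX, mul_zero])
  exact this

/-- backward Gronwall for a linear equation -/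
theorem back (T β : ℝ) (y B : ℝ → R) (hy : ∀ t ∈ Icc (0 : ℝ) T, HasDerivWithinAt y (B t * y t) (Icc 0 T) t)
    (hB : ∀ t ∈ Icc (0 : ℝ) T, ‖B t‖ ≤ β) (t₁ : ℝ) (ht : t₁ ∈ Icc (0 : ℝ) T) (X : R) :
    ‖y 0 * X‖ ≤ ‖y t₁ * X‖ * Real.exp (β * t₁) := by
  have hmap : ∀ τ ∈ Icc (0 : ℝ) t₁, t₁ - τ ∈ Icc (0 : ℝ) T := by
    intro τ hτ
    exact ⟨by linarith [hτ.2], by linarith [hτ.1, ht.2]⟩
  have hyc : ContinuousOn y (Icc 0 T) := fun t ht => (hy t ht).continuousWithinAt
  have hc : ContinuousOn (fun τ => y (t₁ - τ) * X) (Icc 0 t₁) := by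
    refine ContinuousOn.mul (hyc.comp (by fun_prop) hmap) continuousOn_const
  have hd : ∀ τ ∈ Ico (0 : ℝ) t₁, HasDerivWithinAt (fun τ => y (t₁ - τ) * X)
      ((-(B (t₁ - τ) * y (t₁ - τ))) * X) (Ici τ) τ := by
    intro τ hτ
    have h1 := hy (t₁ - τ) (hmap τ ⟨hτ.1, hτ.2.le⟩)
    have h2 : HasDerivWithinAt (fun τ : ℝ => t₁ - τ) (-1) (Icc τ t₁) τ := by
      simpa using ((hasDerivAt_id τ).const_sub t₁).hasDerivWithinAt
    have h3 := HasDerivWithinAt.scomp τ h1 h2 (fun σ hσ => ⟨by linarith [hσ.2], by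
      linarith [hσ.1, hτ.1, ht.2]⟩)
    have h4 : HasDerivWithinAt (fun τ => y (t₁ - τ)) (-(B (t₁ - τ) * y (t₁ - τ))) (Ici τ) τ := by
      have h5 : HasDerivWithinAt (fun τ => y (t₁ - τ)) (-(B (t₁ - τ) * y (t₁ - τ))) (Icc τ t₁) τ := by
        rw [neg_one_smul] at h3
        exact h3
      exact h5.mono_of_mem_nhdsWithin (Icc_mem_nhdsGE hτ.2)
    exact h4.mul_const X
  have hb := norm_le_gronwallBound_of_norm_deriv_right_le (δ := ‖y t₁ * X‖) (K := β) (ε := 0)
    hc hd (by simp) (by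
      intro τ hτ
      rw [add_zero, neg_mul, norm_neg, mul_assoc]
      exact (norm_mul_le _ _).trans (mul_le_mul_of_nonneg_right
        (hB _ (hmap τ ⟨hτ.1, hτ.2.le⟩)) (norm_nonneg _))) t₁ ⟨ht.1, le_rfl⟩
  rw [gronwallBound_ε0] at hb
  simpa using hb

/-- forward Gronwall -/
theorem forw (T β : ℝ) (y B : ℝ → R) (hy : ∀ t ∈ Icc (0 : ℝ) T, HasDerivWithinAt y (B t * y t) (Icc 0 T) t)
    (hB : ∀ t ∈ Icc (0 : ℝ) T, ‖B t‖ ≤ β) (t₁ : ℝ) (ht : t₁ ∈ Icc (0 : ℝ) T) :
    ‖y t₁‖ ≤ ‖y 0‖ * Real.exp (β * t₁) := by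
  have hyc : ContinuousOn y (Icc 0 T) := fun t ht => (hy t ht).continuousWithinAt
  have hd : ∀ τ ∈ Ico (0 : ℝ) T, HasDerivWithinAt y (B τ * y τ) (Ici τ) τ := by
    intro τ hτ
    have h1 := hy τ ⟨hτ.1, hτ.2.le⟩
    exact (h1.mono (Icc_subset_Icc_left hτ.1)).mono_of_mem_nhdsWithin (Icc_mem_nhdsGE hτ.2)
  have hb := norm_le_gronwallBound_of_norm_deriv_right_le (δ := ‖y 0‖) (K := β) (ε := 0)
    hyc hd le_rfl (by
      intro τ hτ
      rw [add_zero]
      exact (norm_mul_le _ _).trans (mul_le_mul_of_nonneg_right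
        (hB _ ⟨hτ.1, hτ.2.le⟩) (norm_nonneg _))) t₁ ht
  rw [gronwallBound_ε0, sub_zero] at hb
  exact hb

theorem flo (K : R → R) (F : R → ℝ) (C₁ T : ℝ)
    (hK : ∀ g, IsUnit g → ContDiffAt ℝ 1 K g) (hF : ∀ g, IsUnit g → DifferentiableAt ℝ F g)
    (hdec : ∀ g, IsUnit g → fderiv ℝ F g (K g * g) ≤ 0)
    (hb : ∀ g, IsUnit g → F g ≤ F 1 → ‖K g‖ ≤ C₁) (hT : 0 < T) :
    ∃ y : ℝ → R, y 0 = 1 ∧ ∀ t ∈ Icc (0 : ℝ) T, IsUnit (y t) ∧
      HasDerivWithinAt y (K (y t) * y t) (Icc 0 T) t := by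
  have : CompleteSpace R := FiniteDimensional.complete ℝ R
  have : ProperSpace R := FiniteDimensional.proper_real R
  have hC₁ : 0 ≤ C₁ := (norm_nonneg _).trans (hb 1 isUnit_one le_rfl)
  obtain ⟨ρ, hρ⟩ : ∃ ρ : ℝ, ρ = ‖(1 : R)‖ * Real.exp (C₁ * T) := ⟨_, rfl⟩
  -- the compact set
  set K₀ : Set R := (fun p : R × R => p.1) ''
    ((closedBall 0 ρ ×ˢ closedBall 0 ρ) ∩ {p : R × R | p.1 * p.2 = 1}) with hK₀
  have hK₀c : IsCompact K₀ := by
    refine IsCompact.image ?_ continuous_fst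
    exact ((isCompact_closedBall 0 ρ).prod (isCompact_closedBall 0 ρ)).inter_right
      (isClosed_eq (continuous_fst.mul continuous_snd) continuous_const)
  have hK₀s : K₀ ⊆ {g : R | IsUnit g} := by
    rintro g ⟨⟨g', k⟩, ⟨_, h2⟩, rfl⟩
    exact unit_of_right g' k h2
  obtain ⟨V, hVo, hKV, hVU, hVc⟩ :=
    exists_open_between_and_isCompact_closure hK₀c (Units.isOpen (R := R)) hK₀s
  obtain ⟨f, hf0, hf1, hf01⟩ := exists_contMDiffMap_zero_one_of_isClosed (n := (⊤ : ℕ∞)) 𝓘(ℝ, R)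
    (s := Vᶜ) (t := K₀) hVo.isClosed_compl hK₀c.isClosed (by
      rw [Set.disjoint_left]
      intro x hx hx'
      exact hx (hKV hx'))
  have hfs : ContDiff ℝ 1 (fun g : R => f g) := (f.contMDiff.contDiff).of_le (by simp)
  have hfz : ∀ g, g ∉ closure V → f g = 0 := fun g hg => hf0 (fun h => hg (subset_closure h))
  -- the cut-off field
  set B : R → R := fun g => f g • K g with hB
  have hBz : ∀ g, g ∉ closure V → B g = 0 := by
    intro g hg
    simp only [hB]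
    rw [hfz g hg, zero_smul]
  have hBs : ContDiff ℝ 1 B := by
    rw [contDiff_iff_contDiffAt]
    intro g
    by_cases hg : g ∈ closure V
    · exact (hfs.contDiffAt).smul (hK g (hVU hg))
    · refine (contDiffAt_const (c := (0 : R))).congr_of_eventuallyEq ?_
      filter_upwards [isClosed_closure.isOpen_compl.mem_nhds hg] with x hx
      exact hBz x hx
  have hBcs : HasCompactSupport B := HasCompactSupport.intro hVc hBz
  obtain ⟨b, hbB⟩ := hBs.continuous.bounded_above_of_compact_support hBcs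
  have hb0 : 0 ≤ b := (norm_nonneg _).trans (hbB 1)
  set v : R → R := fun g => B g * g with hv
  have hvs : ContDiff ℝ 1 v := hBs.mul contDiff_id
  have hvcs : HasCompactSupport v := HasCompactSupport.intro hVc (fun g hg => by
    simp only [hv]
    rw [hBz g hg, zero_mul])
  obtain ⟨L, hL⟩ := ContDiff.lipschitzWith_of_hasCompactSupport hvcs hvs (by simp)
  obtain ⟨M, hM⟩ := hvs.continuous.bounded_above_of_compact_support hvcs
  have hM0 : 0 ≤ M := (norm_nonneg _).trans (hM 1)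
  -- Picard-Lindeloef
  have hPL : IsPicardLindelof (fun _ : ℝ => v) (tmin := 0) (tmax := T) ⟨0, ⟨le_rfl, hT.le⟩⟩
      (1 : R) (⟨M * T, by positivity⟩ : ℝ≥0) 0 (⟨M, hM0⟩ : ℝ≥0) L := by
    refine IsPicardLindelof.of_time_independent (fun x _ => hM x) (hL.lipschitzOnWith) ?_
    simp only [sub_zero, NNReal.coe_zero, sub_self]
    rw [max_eq_left hT.le]
    exact le_rfl
  obtain ⟨y, hy0, hy⟩ := hPL.exists_eq_forall_mem_Icc_hasDerivWithinAt₀
  have hy0' : y 0 = 1 := hy0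
  have hBb : ∀ t ∈ Icc (0 : ℝ) T, ‖B (y t)‖ ≤ b := fun t _ => hbB _
  have hunit : ∀ t ∈ Icc (0 : ℝ) T, IsUnit (y t) := by
    intro t ht
    refine unit_of_inj _ (fun X hX => ?_)
    have h := back T b y (fun t => B (y t)) hy hBb t ht X
    rw [hX, norm_zero, zero_mul, hy0', one_mul] at h
    exact norm_le_zero_iff.1 h
  -- descent
  have hFy : ∀ t ∈ Icc (0 : ℝ) T, HasDerivWithinAt (fun t => F (y t))
      (fderiv ℝ F (y t) (v (y t))) (Icc 0 T) t := by
    intro t ht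
    exact (hF _ (hunit t ht)).hasFDerivAt.comp_hasDerivWithinAt t (hy t ht)
  have hanti : AntitoneOn (fun t => F (y t)) (Icc 0 T) := by
    refine antitoneOn_of_hasDerivWithinAt_nonpos (convex_Icc 0 T)
      (fun t ht => (hFy t ht).continuousWithinAt)
      (fun t ht => (hFy t (interior_subset ht)).mono interior_subset) ?_
    intro t ht
    have h1 : v (y t) = f (y t) • (K (y t) * y t) := by
      simp only [hv, hB, smul_mul_assoc]
    rw [h1, map_smul, smul_eq_mul]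
    exact mul_nonpos_of_nonneg_of_nonpos (hf01 _).1 (hdec _ (hunit t (interior_subset ht)))
  have hFle : ∀ t ∈ Icc (0 : ℝ) T, F (y t) ≤ F 1 := by
    intro t ht
    have := hanti ⟨le_rfl, hT.le⟩ ht ht.1
    simpa [hy0'] using this
  have hBC : ∀ t ∈ Icc (0 : ℝ) T, ‖B (y t)‖ ≤ C₁ := by
    intro t ht
    have h1 := hb _ (hunit t ht) (hFle t ht)
    simp only [hB]
    rw [norm_smul, Real.norm_of_nonneg (hf01 _).1]
    calc f (y t) * ‖K (y t)‖ ≤ 1 * C₁ :=
          mul_le_mul (hf01 _).2 h1 (norm_nonneg _) zero_le_one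
      _ = C₁ := one_mul _
  have hexp : ∀ t ∈ Icc (0 : ℝ) T, Real.exp (C₁ * t) ≤ Real.exp (C₁ * T) := by
    intro t ht
    exact Real.exp_le_exp.2 (mul_le_mul_of_nonneg_left ht.2 hC₁)
  have hmem : ∀ t ∈ Icc (0 : ℝ) T, y t ∈ K₀ := by
    intro t ht
    obtain ⟨u, hu⟩ := hunit t ht
    have h1 : ‖y t‖ ≤ ρ := by
      have h := forw T C₁ y (fun t => B (y t)) hy hBC t ht
      rw [hy0'] at h
      rw [hρ]
      exact h.trans (mul_le_mul_of_nonneg_left (hexp t ht) (norm_nonneg _))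
    have h2 : ‖((u⁻¹ : Rˣ) : R)‖ ≤ ρ := by
      have h := back T C₁ y (fun t => B (y t)) hy hBC t ht ((u⁻¹ : Rˣ) : R)
      rw [hy0', one_mul, ← hu, Units.mul_inv] at h
      rw [hρ]
      exact h.trans (mul_le_mul_of_nonneg_left (hexp t ht) (norm_nonneg _))
    refine ⟨(y t, ((u⁻¹ : Rˣ) : R)), ⟨⟨?_, ?_⟩, ?_⟩, rfl⟩
    · simpa using h1
    · simpa using h2
    · show y t * ((u⁻¹ : Rˣ) : R) = 1
      rw [← hu, Units.mul_inv]
  refine ⟨y, hy0', fun t ht => ⟨hunit t ht, ?_⟩⟩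
  have h1 : f (y t) = 1 := hf1 (hmem t ht)
  have h2 : v (y t) = K (y t) * y t := by
    simp only [hv, hB]
    rw [h1, one_smul]
  rw [← h2]
  exact hy t ht

end Abstract

open Matrix
open scoped Matrix.Norms.Frobenius

theorem pFLO : Pool.Agent.Helper67.NO.StFLO := by
  intro ι _ _ K F C₁ T hK hF hdec hb hT
  exact flo (R := Matrix ι ι ℂ) K F C₁ T hK hF hdec hb hT

end Pool.Agent.Helper34.NO
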